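import Pool.Agent.helper83.BCMod5

/-!
# The Buzzard-Calegari conjecture for the 2-adic slopes of the Hecke operator at 2, level one

For every `k` with `12 ≤ 2k`, the 2-adic Newton polygon of `det (1 - X T₂)` on the space of cusp
forms of weight `2k` for `SL₂(ℤ)` equals the Newton polygon of the Buzzard-Calegari polynomial.
-/

set_option autoImplicit false

namespace Pool.Agent.Results.MP_c3117b_nt.BuzzardCalegari

open UpperHalfPlane ModularForm MatrixGroups Polynomial Finset

/-- The complex vector space `S_{2k}` of cusp forms of weight `2k` for `SL₂(ℤ)`. -/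
abbrev S (k : ℕ) : Type := CuspForm 𝒮ℒ ((2 * k : ℕ) : ℤ)

/-- `T` is the Hecke operator `T₂` on `S_{2k}`:
`(T f)(z) = 2^{2k-1} f(2z) + (f(z/2) + f((z+1)/2)) / 2`. -/
def IsHeckeT2 (k : ℕ) (T : S k →ₗ[ℂ] S k) : Prop :=
  ∀ (f : S k) (z : ℍ), T f z = 2 ^ (2 * k - 1) * f (ofComplex (2 * (z : ℂ)))
    + (f (ofComplex ((z : ℂ) / 2)) + f (ofComplex (((z : ℂ) + 1) / 2))) / 2

/-- `P` is the polynomial `det (1 - X T)` (its coefficients are rational). -/
def IsDetOneSub (k : ℕ) (T : S k →ₗ[ℂ] S k) (P : ℚ[X]) : Prop :=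
  ∀ x : ℂ, aeval x P = LinearMap.det (LinearMap.id - x • T)

/-- The 2-adic Newton polygon of a polynomial with rational coefficients, recorded as the region
on and above it: the convex hull of the vertical upward rays from the points `(n, v₂(cₙ))`,
`cₙ ≠ 0`. -/
def newtonPolygon (P : ℚ[X]) : Set (ℝ × ℝ) :=
  convexHull ℝ {x : ℝ × ℝ | ∃ n : ℕ, P.coeff n ≠ 0 ∧ x.1 = n ∧
    (padicValRat 2 (P.coeff n) : ℝ) ≤ x.2}

/-- The coefficient `cₙ` of the Buzzard-Calegari polynomial in weight `2k`. -/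
def bcCoeff (k n : ℕ) : ℚ := ∏ i ∈ Icc 1 n,
  (4 : ℚ) ^ i * (2 * k - 12 * i - 2) * ((2 * k - 8 * i).factorial : ℕ)
      * ((2 * k - 8 * i - 3).factorial : ℕ)
    / (((2 * k - 6 * i - 2).factorial : ℕ) * ((2 * k - 12 * i).factorial : ℕ))

/-- The Buzzard-Calegari polynomial `c₀ + c₁ X + ⋯ + c_m X^m`, `m = dim S_{2k}`. -/
noncomputable def bcPoly (k : ℕ) : ℚ[X] :=
  ∑ n ∈ range (Module.finrank ℂ (S k) + 1), C (bcCoeff k n) * X ^ n

lemma eval_charpolyRev_eq {n : Type*} [Fintype n] [DecidableEq n] (M : Matrix n n ℂ) (x : ℂ) :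
    M.charpolyRev.eval x = (1 - x • M).det := by
  unfold Matrix.charpolyRev
  rw [← coe_evalRingHom, RingHom.map_det]
  congr 1
  refine Matrix.ext fun i j => ?_
  simp [Matrix.one_apply, apply_ite (Polynomial.eval x)]
  ring

lemma eval_reverse_charpoly {V : Type*} [AddCommGroup V] [Module ℂ V] [Module.Finite ℂ V]
    (T : V →ₗ[ℂ] V) (x : ℂ) :
    T.charpoly.reverse.eval x = LinearMap.det (LinearMap.id - x • T) := by
  classical
  let B := Module.finBasis ℂ V
  rw [← LinearMap.charpoly_toMatrix T B, Matrix.reverse_charpoly, eval_charpolyRev_eq,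
    ← LinearMap.det_toMatrix B]
  congr 1
  rw [map_sub, map_smul, LinearMap.toMatrix_id]

/-- **The Buzzard-Calegari conjecture.** For every `k` with `2k ≥ 12`: the space `S_{2k}` is
finite dimensional, there is exactly one Hecke operator `T₂` on it, `det (1 - X T₂)` is a
polynomial with rational coefficients, and its 2-adic Newton polygon equals that of the
Buzzard-Calegari polynomial. -/
theorem result (k : ℕ) (hk : 12 ≤ 2 * k) :
    FiniteDimensional ℂ (S k) ∧ (∃! T : S k →ₗ[ℂ] S k, IsHeckeT2 k T) ∧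
      ∀ T : S k →ₗ[ℂ] S k, IsHeckeT2 k T →
        ∃ P : ℚ[X], IsDetOneSub k T P ∧ newtonPolygon P = newtonPolygon (bcPoly k) := by
  have hk6 : 6 ≤ k := by omega
  set p := helper83.BC.parOf k hk6 with hp
  have hT : IsHeckeT2 k (helper83.BC.heckeT2 (2 * k)) := by
    intro f z
    rw [helper83.BC.heckeT2_apply]
    have e0 : ofComplex (2 * (z : ℂ)) = helper83.BC.sc0 z :=
      ofComplex_apply_of_im_pos (helper83.BC.sc0_pos z)
    have e1 : ofComplex ((z : ℂ) / 2) = helper83.BC.sc1 z :=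
      ofComplex_apply_of_im_pos (helper83.BC.sc1_pos z)
    have e2 : ofComplex (((z : ℂ) + 1) / 2) = helper83.BC.sc2 z :=
      ofComplex_apply_of_im_pos (helper83.BC.sc2_pos z)
    rw [e0, e1, e2]
    have e3 : (2 : ℂ) ^ (2 * k) = 2 * 2 ^ (2 * k - 1) := by
      rw [← pow_succ']; congr 1; omega
    rw [e3]; ring
  have huniq : ∀ T : S k →ₗ[ℂ] S k, IsHeckeT2 k T → T = helper83.BC.heckeT2 (2 * k) := by
    intro T h
    apply LinearMap.ext
    intro f
    ext z
    rw [h f z, hT f z]
  refine ⟨helper83.BC.cusp_finite _, ⟨_, hT, huniq⟩, ?_⟩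
  intro T h
  rw [huniq T h]
  refine ⟨p.md.T.charpolyRev, ?_, ?_⟩
  · intro x
    rw [← eval_reverse_charpoly, helper83.BC.charpoly_hecke k hk6, Polynomial.eval_map_algebraMap]
  · have hbc : bcPoly k = helper83.BC.bcPoly k p.d := by
      unfold bcPoly
      have hfr : Module.finrank ℂ (S k) = p.d := helper83.BC.finrank_eq_d k hk6
      rw [hfr]
      rfl
    rw [hbc]
    rcases Nat.eq_zero_or_pos p.d with hd | hd
    · have h1 : p.md.T.charpolyRev = 1 := by
        unfold Matrix.charpolyRev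
        have : IsEmpty (Fin p.d) := by rw [hd]; infer_instance
        rw [Matrix.det_isEmpty]
      have h2 : helper83.BC.bcPoly k p.d = 1 := by
        rw [hd]
        simp [helper83.BC.bcPoly, helper83.BC.bcCoeff]
      rw [h1, h2]
    · exact helper83.BC.np_matrix k hk6 hd

end Pool.Agent.Results.MP_c3117b_nt.BuzzardCalegari
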